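import Mathlib

namespace Pool.Agent.Results.MP_307271_an.Weiss

open Filter Topology

section Defs

variable {X : Type} [MetricSpace X]

/-- The Bowen distance `D_T(x,y)`, the maximum of `D(F^t x, F^t y)` over `0 ≤ t < T`. -/
noncomputable def DT (F : X ≃ₜ X) (T : ℕ) (x y : X) : ℝ := ⨆ t : Fin T, dist (F^[t] x) (F^[t] y)

/-- The largest size of an `ε`-separated set for `D_T`. -/
noncomputable def sep (F : X ≃ₜ X) (ε : ℝ) (T : ℕ) : ℕ :=
  sSup {n | ∃ S : Finset X, S.card = n ∧ ∀ x ∈ S, ∀ y ∈ S, x ≠ y → ε ≤ DT F T x y}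

/-- The smallest size of an `ε`-spanning set for `D_T`. -/
noncomputable def span (F : X ≃ₜ X) (ε : ℝ) (T : ℕ) : ℕ :=
  sInf {n | ∃ S : Finset X, S.card = n ∧ ∀ x, ∃ s ∈ S, DT F T s x < ε}

/-- The lower growth rate `liminf (ln a_T) / T`. -/
noncomputable def lo (a : ℕ → ℕ) : EReal :=
  liminf (fun T : ℕ => ((Real.log (a T) / T : ℝ) : EReal)) atTop

/-- The upper growth rate `limsup (ln a_T) / T`. -/
noncomputable def up (a : ℕ → ℕ) : EReal :=
  limsup (fun T : ℕ => ((Real.log (a T) / T : ℝ) : EReal)) atTop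

/-- Topological entropy: the upper separation rate as `ε` decreases to `0`. -/
noncomputable def ent (F : X ≃ₜ X) : EReal := limsup (fun ε : ℝ => up (sep F ε)) (𝓝[>] 0)

/-- Some point has a dense forward orbit. -/
def DenseOrbit (F : X ≃ₜ X) : Prop := ∃ x, Dense (Set.range fun n : ℕ => F^[n] x)

end Defs

section Model

variable {A : Type}

open Classical in
/-- The alphabet metric. -/
noncomputable def d (rel : A → A → Prop) (a b : A) : ℝ :=
  if a = b then 0 else if rel a b ∨ rel b a then 1 else 2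

/-- Letters at distance two. -/
def far (rel : A → A → Prop) (a b : A) : Prop := a ≠ b ∧ ¬rel a b ∧ ¬rel b a

variable {rel : A → A → Prop}

lemma d_self (a : A) : d rel a a = 0 := by simp [d]
lemma d_nonneg (a b : A) : 0 ≤ d rel a b := by unfold d; split_ifs <;> norm_num
lemma d_le (a b : A) : d rel a b ≤ 2 := by unfold d; split_ifs <;> norm_num
lemma d_pos {a b : A} (h : a ≠ b) : 1 ≤ d rel a b := by
  unfold d; rw [if_neg h]; split_ifs <;> norm_num
lemma d_symm (a b : A) : d rel a b = d rel b a := by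
  unfold d
  by_cases h : a = b
  · rw [if_pos h, if_pos h.symm]
  · rw [if_neg h, if_neg (Ne.symm h)]
    by_cases h2 : rel a b ∨ rel b a
    · rw [if_pos h2, if_pos h2.symm]
    · rw [if_neg h2, if_neg fun h3 => h2 h3.symm]
lemma d_far {a b : A} (h : far rel a b) : d rel a b = 2 := by
  unfold d; rw [if_neg h.1, if_neg (not_or.2 h.2)]
lemma d_near {a b : A} (h : ¬far rel a b) : d rel a b ≤ 1 := by
  unfold d far at *
  split_ifs with h1 h2
  · norm_num
  · norm_num
  · exact absurd ⟨h1, not_or.1 h2⟩ h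
lemma d_tri (a b c : A) : d rel a c ≤ d rel a b + d rel b c := by
  by_cases h1 : a = b
  · rw [h1, d_self, zero_add]
  by_cases h2 : b = c
  · rw [h2, d_self, add_zero]
  linarith [d_le (rel := rel) a c, d_pos (rel := rel) h1, d_pos (rel := rel) h2]

/-- The metric on sequences. -/
noncomputable def rho (rel : A → A → Prop) (x y : ℤ → A) : ℝ :=
  ⨆ n : ℤ, d rel (x n) (y n) / 2 ^ n.natAbs

lemma term_le (x y : ℤ → A) (n : ℤ) (r : ℕ) (h : r ≤ n.natAbs) :
    d rel (x n) (y n) / 2 ^ n.natAbs ≤ 2 / 2 ^ r := by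
  have := d_le (rel := rel) (x n) (y n)
  gcongr
  norm_num

lemma le_rho (x y : ℤ → A) (n : ℤ) : d rel (x n) (y n) / 2 ^ n.natAbs ≤ rho rel x y :=
  le_ciSup (f := fun n : ℤ => d rel (x n) (y n) / 2 ^ n.natAbs)
    ⟨2 / 2 ^ 0, by rintro _ ⟨n, rfl⟩; exact term_le x y n 0 (Nat.zero_le _)⟩ n

lemma rho_agree (x y : ℤ → A) (r : ℕ) (h : ∀ i : ℤ, |i| ≤ r → x i = y i) :
    rho rel x y ≤ 1 / 2 ^ r := by
  refine ciSup_le fun n => ?_
  by_cases hn : |n| ≤ r
  · rw [h n hn, d_self, zero_div]; positivity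
  · refine (term_le x y n (r + 1) (by rw [Int.abs_eq_natAbs] at hn; omega)).trans (le_of_eq ?_)
    rw [pow_succ]; field_simp

lemma rho_shift (x y : ℤ → A) (c : ℤ) (hc : c.natAbs = 1) :
    rho rel (fun n => x (n + c)) (fun n => y (n + c)) ≤ 2 * rho rel x y := by
  refine ciSup_le fun n => ?_
  refine le_trans ?_ (mul_le_mul_of_nonneg_left (le_rho x y (n + c)) (by norm_num))
  have h1 : (2 : ℝ) ^ (n + c).natAbs ≤ 2 ^ (n.natAbs + 1) :=
    pow_le_pow_right₀ (by norm_num) (by omega)
  have := d_nonneg (rel := rel) (x (n + c)) (y (n + c))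
  rw [← mul_div_assoc, div_le_div_iff₀ (by positivity) (by positivity)]
  rw [pow_succ] at h1
  nlinarith

/-- A metric model of a two-sided subshift. -/
structure Model (rel : A → A → Prop) (X : Set (ℤ → A)) {Y : Type} [MetricSpace Y] (F : Y ≃ₜ Y)
    (e : Y → ℤ → A) : Prop where
  mem : ∀ y, e y ∈ X
  surj : ∀ s ∈ X, ∃ y, e y = s
  sh : ∀ y n, e (F y) n = e y (n + 1)
  dist_eq : ∀ x y, dist x y = rho rel (e x) (e y)

/-- Type synonym carrying the metric. -/
def Sp (X : Set (ℤ → A)) : Type := X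

lemma build [Finite A] [TopologicalSpace A] [DiscreteTopology A] (rel : A → A → Prop)
    (X : Set (ℤ → A)) (hc : IsClosed X) (hX : ∀ s ∈ X, ∀ c : ℤ, (fun n => s (n + c)) ∈ X) :
    ∃ (Y : Type) (_ : MetricSpace Y) (_ : CompactSpace Y) (F : Y ≃ₜ Y) (e : Y → ℤ → A),
      Model rel X F e := by
  let e : Sp X → ℤ → A := fun y => Subtype.val (p := (· ∈ X)) y
  let m : MetricSpace (Sp X) :=
    { dist := fun x y => rho rel (e x) (e y)
      dist_self := fun x => by simp [rho, d_self]
      dist_comm := fun x y => by simp only [rho, d_symm (e x _)]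
      dist_triangle := fun x y z => ciSup_le fun n => by
        refine le_trans ?_ (add_le_add (le_rho (e x) (e y) n) (le_rho (e y) (e z) n))
        rw [← add_div]
        gcongr
        exact d_tri _ _ _
      eq_of_dist_eq_zero := fun {x y} h => by
        refine Subtype.ext (p := (· ∈ X)) (funext fun n => ?_)
        by_contra hn
        have h1 := le_rho (rel := rel) (e x) (e y) n
        have h2 := d_pos (rel := rel) hn
        have h3 : 0 < d rel (e x n) (e y n) / 2 ^ n.natAbs := by positivity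
        change rho rel (e x) (e y) = 0 at h
        linarith }
  have hd : ∀ x y : Sp X, dist x y = rho rel (e x) (e y) := fun _ _ => rfl
  let g : X → Sp X := fun x => x
  have hg : Continuous g := by
    rw [Metric.continuous_iff']
    intro a ε hε
    obtain ⟨r, hr⟩ := exists_pow_lt_of_lt_one hε (show (1 / 2 : ℝ) < 1 by norm_num)
    have : ∀ᶠ x in 𝓝 a, ∀ i ∈ Finset.Icc (-r : ℤ) r, x.1 i = a.1 i := by
      rw [Finset.eventually_all]
      intro i _
      have h : Continuous fun x : X => x.1 i := (continuous_apply i).comp continuous_subtype_val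
      exact tendsto_pure.1 (by simpa [nhds_discrete] using h.tendsto a)
    filter_upwards [this] with x hx
    rw [hd]
    refine (rho_agree _ _ r fun i hi => hx i (by simpa [abs_le] using hi)).trans_lt ?_
    rwa [one_div_pow] at hr
  have : CompactSpace X := isCompact_iff_compactSpace.1 hc.isCompact
  have : CompactSpace (Sp X) := Function.Surjective.compactSpace (f := g) hg fun x => ⟨x, rfl⟩
  let S : ℤ → Sp X → Sp X := fun c y => (⟨fun n => e y (n + c), hX _ y.2 c⟩ : X)
  have hS : ∀ c : ℤ, c.natAbs = 1 → Continuous (S c) := fun c hc =>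
    (LipschitzWith.of_dist_le_mul (K := 2) fun x y => rho_shift _ _ c hc).continuous
  refine ⟨Sp X, m, this, ⟨⟨S 1, S (-1), fun y => ?_, fun y => ?_⟩, hS 1 rfl, hS (-1) rfl⟩, e,
    fun y => y.2, fun s hs => ⟨(⟨s, hs⟩ : X), rfl⟩, fun _ _ => rfl, hd⟩
  · exact Subtype.ext (p := (· ∈ X)) (funext fun n => by simp [S, e])
  · exact Subtype.ext (p := (· ∈ X)) (funext fun n => by simp [S, e])

variable {X : Set (ℤ → A)} {Y : Type} [MetricSpace Y] {F : Y ≃ₜ Y} {e : Y → ℤ → A}

lemma Model.iter (M : Model rel X F e) (t : ℕ) (y : Y) (n : ℤ) : e (F^[t] y) n = e y (n + t) := by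
  induction t generalizing n with
  | zero => simp
  | succ t ih => rw [Function.iterate_succ_apply', M.sh, ih]; push_cast; congr 1; ring

lemma Model.d_le_DT (M : Model rel X F e) {T t : ℕ} (ht : t < T) (x y : Y) :
    d rel (e x t) (e y t) ≤ DT F T x y := by
  refine le_trans ?_ (le_ciSup (f := fun t : Fin T => dist (F^[t] x) (F^[t] y))
    (Finite.bddAbove_range _) ⟨t, ht⟩)
  have := le_rho (rel := rel) (e (F^[t] x)) (e (F^[t] y)) 0
  simpa [M.dist_eq, M.iter] using this

lemma Model.DT_near (M : Model rel X F e) {T : ℕ} {x y : Y}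
    (h : ∀ t < T, ¬far rel (e x t) (e y t)) : DT F T x y ≤ 1 := by
  refine Real.iSup_le (fun t => ?_) zero_le_one
  rw [M.dist_eq]
  refine ciSup_le fun n => ?_
  by_cases hn : n = 0
  · subst hn
    simpa [M.iter] using d_near (h t t.2)
  · exact (term_le _ _ n 1 (by omega)).trans (by norm_num)

lemma Model.DT_two (M : Model rel X F e) (T : ℕ) (x y : Y) : DT F T x y ≤ 2 := by
  refine Real.iSup_le (fun t => ?_) zero_le_two
  rw [M.dist_eq]
  exact ciSup_le fun n => (term_le _ _ n 0 (by omega)).trans (by norm_num)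

lemma Model.DT_agree (M : Model rel X F e) {T r : ℕ} {x y : Y}
    (h : ∀ i : Fin (T + 2 * r), e x (-r + i) = e y (-r + i)) : DT F T x y ≤ 1 / 2 ^ r := by
  refine Real.iSup_le (fun t => ?_) (by positivity)
  rw [M.dist_eq]
  refine rho_agree _ _ r fun i hi => ?_
  rw [M.iter, M.iter]
  rw [abs_le] at hi
  have := h ⟨(i + t + r).toNat, by omega⟩
  rwa [show -(r : ℤ) + ((i + t + r).toNat : ℕ) = i + t by omega] at this

/-- Separated sets inject into any finite set of codes. -/
lemma sep_card {B : Type} (ε : ℝ) (T : ℕ) (W : Finset B) (c : Y → B) (hW : ∀ y, c y ∈ W)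
    (hc : ∀ x y, c x = c y → DT F T x y < ε) {n : ℕ}
    (hn : n ∈ {n | ∃ S : Finset Y, S.card = n ∧ ∀ x ∈ S, ∀ y ∈ S, x ≠ y → ε ≤ DT F T x y}) :
    n ≤ W.card := by
  obtain ⟨S, rfl, hS⟩ := hn
  refine Finset.card_le_card_of_injOn c (fun y _ => hW y) fun x hx y hy h => ?_
  by_contra hne
  exact absurd (hS x hx y hy hne) (not_le.2 (hc x y h))

lemma sep_le {ε : ℝ} {T N : ℕ}
    (h : ∀ S : Finset Y, (∀ x ∈ S, ∀ y ∈ S, x ≠ y → ε ≤ DT F T x y) → S.card ≤ N) :
    sep F ε T ≤ N :=
  csSup_le' (by rintro _ ⟨S, rfl, hS⟩; exact h S hS)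

lemma sep_le_code {B : Type} (ε : ℝ) (T : ℕ) (W : Finset B) (c : Y → B) (hW : ∀ y, c y ∈ W)
    (hc : ∀ x y, c x = c y → DT F T x y < ε) : sep F ε T ≤ W.card :=
  csSup_le' fun _ hn => sep_card ε T W c hW hc hn

lemma small {ε : ℝ} (hε : 0 < ε) : ∃ r : ℕ, 1 / 2 ^ r < ε := by
  obtain ⟨r, hr⟩ := exists_pow_lt_of_lt_one hε (show (1 / 2 : ℝ) < 1 by norm_num)
  exact ⟨r, by rwa [one_div_pow] at hr⟩

lemma Model.le_sep [Fintype A] (M : Model rel X F e) {ε : ℝ} (hε : 0 < ε) (T : ℕ) {B : Type}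
    [Fintype B] (p : B → ℤ → A) (hp : ∀ w, p w ∈ X)
    (hs : ∀ w w', w ≠ w' → ∃ t < T, ε ≤ d rel (p w t) (p w' t)) : Fintype.card B ≤ sep F ε T := by
  classical
  obtain ⟨r, hr⟩ := small hε
  choose g hg using fun w => M.surj _ (hp w)
  have key : ∀ w w', w ≠ w' → ε ≤ DT F T (g w) (g w') := fun w w' h => by
    obtain ⟨t, ht, h⟩ := hs w w' h
    exact le_trans (by rwa [hg, hg]) (M.d_le_DT ht _ _)
  have inj : Function.Injective g := fun w w' h => by
    by_contra hne
    have := key w w' hne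
    rw [h] at this
    simp [DT] at this
    linarith
  refine le_csSup ⟨_, fun n hn => sep_card ε T Finset.univ
    (fun y (i : Fin (T + 2 * r)) => e y (-r + i)) (fun _ => Finset.mem_univ _)
    (fun x y h => (M.DT_agree fun i => congrFun h i).trans_lt hr) hn⟩
    ⟨Finset.univ.image g, by rw [Finset.card_image_of_injective _ inj]; rfl, ?_⟩
  intro x hx y hy hne
  obtain ⟨w, -, rfl⟩ := Finset.mem_image.1 hx
  obtain ⟨w', -, rfl⟩ := Finset.mem_image.1 hy
  exact key w w' fun h => hne (h ▸ rfl)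

/-- A coded family of centres bounds the spanning number. -/
lemma span_code [Nonempty Y] {B : Type} (ε : ℝ) (T : ℕ) (W : Finset B) (c : Y → B)
    (h : ∀ x, ∃ y, c y ∈ W ∧ ∀ z, c z = c y → DT F T z x < ε) :
    ∃ S : Finset Y, S.card ≤ W.card ∧ ∀ x, ∃ s ∈ S, DT F T s x < ε := by
  classical
  refine ⟨W.image (Function.invFun c), Finset.card_image_le, fun x => ?_⟩
  obtain ⟨y, hy, hz⟩ := h x
  exact ⟨_, Finset.mem_image_of_mem _ hy, hz _ (Function.invFun_eq ⟨y, rfl⟩)⟩

lemma log_le {a : ℕ} {z : ℝ} (hz : 1 ≤ z) (h : (a : ℝ) ≤ z) : Real.log a ≤ Real.log z := by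
  rcases Nat.eq_zero_or_pos a with h0 | h0
  · rw [h0, Nat.cast_zero, Real.log_zero]
    exact Real.log_nonneg hz
  · exact Real.log_le_log (by exact_mod_cast h0) h

lemma Model.ent_lt [Fintype A] [Nonempty A] (M : Model rel X F e) : ent F < ⊤ := by
  classical
  refine lt_of_le_of_lt (b := ((2 * Real.log (Fintype.card A) : ℝ) : EReal)) ?_ (EReal.coe_lt_top _)
  refine limsup_le_of_le (h := ?_)
  filter_upwards [self_mem_nhdsWithin] with ε hε
  obtain ⟨r, hr⟩ := small hε
  refine limsup_le_of_le (h := ?_)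
  filter_upwards [eventually_ge_atTop (2 * r + 1)] with T hT
  have h := sep_le_code (F := F) ε T Finset.univ
    (fun y (i : Fin (T + 2 * r)) => e y (-r + i)) (fun _ => Finset.mem_univ _)
    (fun x y h => (M.DT_agree fun i => congrFun h i).trans_lt hr)
  have h1 : (1 : ℝ) ≤ Fintype.card A := by exact_mod_cast Fintype.card_pos
  have h2 := log_le (a := sep F ε T) (z := Fintype.card A ^ (T + 2 * r)) (one_le_pow₀ h1)
    (by simp at h; exact_mod_cast h)
  have h3 := Real.log_nonneg h1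
  have h4 : (2 * r + 1 : ℝ) ≤ T := by exact_mod_cast hT
  have h5 : (0 : ℝ) ≤ r := by positivity
  rw [EReal.coe_le_coe_iff, div_le_iff₀ (by linarith)]
  rw [Real.log_pow] at h2
  push_cast at h2
  nlinarith

lemma Model.trans [CompactSpace Y] [Nonempty Y] (M : Model rel X F e)
    (glue : ∀ x ∈ X, ∀ y ∈ X, ∀ r : ℕ, ∃ z ∈ X, ∃ n : ℕ,
      ∀ i : ℤ, |i| ≤ r → z i = x i ∧ z (i + n) = y i) : DenseOrbit F := by
  obtain ⟨u, hu⟩ := TopologicalSpace.exists_dense_seq Y
  let G : ℕ × ℕ → Set Y := fun p => ⋃ n : ℕ, F^[n] ⁻¹' Metric.ball (u p.1) (1 / 2 ^ p.2)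
  have ho : ∀ p, IsOpen (G p) := fun p =>
    isOpen_iUnion fun n => Metric.isOpen_ball.preimage (F.continuous.iterate n)
  have hd : ∀ p, Dense (G p) := fun p => by
    rw [Metric.dense_iff]
    intro x ε hε
    obtain ⟨r, hr⟩ := small (lt_min hε (show (0 : ℝ) < 1 / 2 ^ p.2 by positivity))
    obtain ⟨z, hz, n, h⟩ := glue _ (M.mem x) _ (M.mem (u p.1)) r
    obtain ⟨z, rfl⟩ := M.surj z hz
    refine ⟨z, ?_, Set.mem_iUnion.2 ⟨n, ?_⟩⟩
    · rw [Metric.mem_ball, M.dist_eq]
      exact (rho_agree _ _ r fun i hi => (h i hi).1).trans_lt (hr.trans_le (min_le_left _ _))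
    · rw [Set.mem_preimage, Metric.mem_ball, M.dist_eq]
      exact (rho_agree _ _ r fun i hi => by rw [M.iter, (h i hi).2]).trans_lt
        (hr.trans_le (min_le_right _ _))
  obtain ⟨x, hx⟩ := (dense_iInter_of_isOpen ho hd).nonempty
  refine ⟨x, Metric.dense_iff.2 fun y ε hε => ?_⟩
  obtain ⟨r, hr⟩ := small (half_pos hε)
  obtain ⟨i, hi⟩ := hu.exists_dist_lt y (half_pos hε)
  obtain ⟨n, hn⟩ := Set.mem_iUnion.1 (Set.mem_iInter.1 hx (i, r))
  refine ⟨F^[n] x, ?_, n, rfl⟩
  rw [Set.mem_preimage, Metric.mem_ball] at hn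
  rw [Metric.mem_ball]
  linarith [dist_triangle_right (F^[n] x) y (u i)]

/-- Weighted counting of words. -/
lemma weight [Fintype A] [DecidableEq A] (N : ℕ) (ω : A → ℝ) (h0 : ∀ a, 0 ≤ ω a) (θ : ℝ) :
    ((Finset.univ.filter fun w : Fin N → A => θ ≤ ∏ i, ω (w i)).card : ℝ) * θ ≤
      (∑ a, ω a) ^ N := by
  rw [Fintype.sum_pow, ← nsmul_eq_mul]
  refine (Finset.card_nsmul_le_sum _ (fun w : Fin N → A => ∏ i, ω (w i)) _ fun w hw =>
    (Finset.mem_filter.1 hw).2).trans ?_
  exact Finset.sum_le_sum_of_subset_of_nonneg (Finset.subset_univ _)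
    fun w _ _ => Finset.prod_nonneg fun i _ => h0 _

end Model

section Shift

/-- The scales. -/
def tt : ℕ → ℕ
  | 0 => 1
  | k + 1 => 1000 * tt k ^ 2

lemma tt_pos (k : ℕ) : 1 ≤ tt k := by
  induction k with
  | zero => exact le_rfl
  | succ k ih => unfold tt; nlinarith

lemma tt_step (k : ℕ) : 1000 * tt k ≤ tt (k + 1) := by
  have := tt_pos k
  rw [tt]; nlinarith

lemma tt_mono : StrictMono tt := strictMono_nat_of_lt_succ fun k => by
  have := tt_pos k
  have := tt_step k
  omega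

/-- The alphabet: blank, marker, four letters, and two copies of `V`. -/
abbrev Al (V : Type) : Type := Fin 6 ⊕ Bool × V

variable {V : Type}

/-- The blank. -/
abbrev bl : Al V := Sum.inl 0

/-- The marker. -/
abbrev mk : Al V := Sum.inl 1

/-- Membership in one of the two copies. -/
def isV (σ : Bool) (a : Al V) : Prop := ∃ x, a = Sum.inr (σ, x)

/-- Close letters. -/
def rl (conf : Bool → V → V → Prop) (a a' : Al V) : Prop :=
  (a = bl ∧ a' ≠ mk) ∨ ∃ σ x y, a = Sum.inr (σ, x) ∧ a' = Sum.inr (σ, y) ∧ conf σ x y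

open Classical in
/-- Number of letters with property `P` in a window. -/
noncomputable def cnt (P : Al V → Prop) (s : ℤ → Al V) (j : ℤ) (T : ℕ) : ℕ :=
  ∑ i ∈ Finset.range T, if P (s (j + i)) then 1 else 0

/-- The subshift. -/
def XX (V : Type) : Set (ℤ → Al V) :=
  {s | (∀ (k : ℕ) (j i : ℤ), j < i → i < j + tt k → s j = mk → s (j + tt k) = mk → s i ≠ bl) ∧
    (∀ (k : ℕ) (j : ℤ), cnt (· = mk) s j (tt (k + 1)) ≤ 2 * tt k) ∧
    ∀ (k : ℕ) (j : ℤ), cnt (isV true) s j (tt (k + 1)) ≤ 2 * tt k ∨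
      cnt (isV false) s j (tt (k + 1)) ≤ 2 * tt k}

lemma cnt_mono {P Q : Al V → Prop} {s s' : ℤ → Al V} {j j' : ℤ} {T : ℕ}
    (h : ∀ i : ℕ, i < T → P (s (j + i)) → Q (s' (j' + i))) : cnt P s j T ≤ cnt Q s' j' T := by
  refine Finset.sum_le_sum fun i hi => ?_
  by_cases h1 : P (s (j + i))
  · rw [if_pos h1, if_pos (h i (Finset.mem_range.1 hi) h1)]
  · rw [if_neg h1]; exact Nat.zero_le _

lemma cnt_le_card {P : Al V → Prop} {s : ℤ → Al V} {j : ℤ} {T : ℕ} (B : Finset ℤ)
    (h : ∀ i : ℕ, i < T → P (s (j + i)) → j + i ∈ B) : cnt P s j T ≤ B.card := by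
  classical
  unfold cnt
  rw [← Finset.card_filter]
  refine Finset.card_le_card_of_injOn (fun i : ℕ => j + i) (fun i hi => ?_) fun a _ b _ h => ?_
  · simp only [Finset.coe_filter, Finset.mem_range, Set.mem_ofPred_eq] at hi
    exact h i hi.1 hi.2
  · simpa using h

lemma cnt_cont [TopologicalSpace (Al V)] [DiscreteTopology (Al V)] (P : Al V → Prop) (j : ℤ)
    (T c : ℕ) : IsClosed {s : ℤ → Al V | cnt P s j T ≤ c} := by
  classical
  refine (isClosed_discrete {n : ℕ | n ≤ c}).preimage (f := fun s : ℤ → Al V => cnt P s j T) ?_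
  refine continuous_finsetSum _ fun i _ => ?_
  exact (continuous_of_discreteTopology (f := fun a : Al V => if P a then 1 else 0)).comp
    (continuous_apply _)

lemma closed [TopologicalSpace (Al V)] [DiscreteTopology (Al V)] : IsClosed (XX V) := by
  unfold XX
  simp only [Set.ofPred_and, Set.ofPred_forall (ι := ℕ), Set.ofPred_forall (ι := ℤ),
    Set.ofPred_or]
  refine IsClosed.inter ?_ (IsClosed.inter ?_ ?_)
  · refine isClosed_iInter fun k => isClosed_iInter fun j => isClosed_iInter fun i => ?_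
    exact (isClosed_discrete {p : Al V × Al V × Al V |
      j < i → i < j + tt k → p.1 = mk → p.2.1 = mk → p.2.2 ≠ bl}).preimage
      (f := fun s : ℤ → Al V => (s j, s (j + tt k), s i)) (by fun_prop)
  · exact isClosed_iInter fun k => isClosed_iInter fun j => cnt_cont _ _ _ _
  · exact isClosed_iInter fun k => isClosed_iInter fun j =>
      (cnt_cont _ _ _ _).union (cnt_cont _ _ _ _)

lemma inv : ∀ s ∈ XX V, ∀ c : ℤ, (fun n => s (n + c)) ∈ XX V := by
  rintro s ⟨h1, h2, h3⟩ c
  have e : ∀ (P : Al V → Prop) j T, cnt P (fun n => s (n + c)) j T ≤ cnt P s (j + c) T :=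
    fun P j T => cnt_mono fun i _ h => by rwa [add_right_comm]
  refine ⟨fun k j i a b p q => h1 k (j + c) (i + c) (by omega) (by omega) p
    (by rwa [add_right_comm]), fun k j => (e _ _ _).trans (h2 _ _), fun k j => ?_⟩
  exact (h3 k (j + c)).imp (e _ _ _).trans (e _ _ _).trans

/-- The counting rules pass to any window that is an allowed window with some letters blanked. -/
lemma her {x z : ℤ → Al V} (hx : x ∈ XX V) (k : ℕ) (j j' : ℤ)
    (h : ∀ i : ℕ, i < tt (k + 1) → z (j + i) = x (j' + i) ∨ z (j + i) = bl) :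
    cnt (· = mk) z j (tt (k + 1)) ≤ 2 * tt k ∧ (cnt (isV true) z j (tt (k + 1)) ≤ 2 * tt k ∨
      cnt (isV false) z j (tt (k + 1)) ≤ 2 * tt k) := by
  have e : ∀ P : Al V → Prop, ¬P bl → cnt P z j (tt (k + 1)) ≤ cnt P x j' (tt (k + 1)) :=
    fun P hP => cnt_mono fun i hi hz => by
      rcases h i hi with h | h
      · rwa [← h]
      · exact absurd (h ▸ hz) hP
  exact ⟨(e _ (by simp)).trans (hx.2.1 _ _), (hx.2.2 k j').imp (e _ (by simp [isV])).trans
    (e _ (by simp [isV])).trans⟩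

lemma glue : ∀ x ∈ XX V, ∀ y ∈ XX V, ∀ r : ℕ, ∃ z ∈ XX V, ∃ n : ℕ,
    ∀ i : ℤ, |i| ≤ r → z i = x i ∧ z (i + n) = y i := by
  intro x hx y hy r
  obtain ⟨k, hk⟩ : ∃ k, 2 * r + 1 ≤ tt k := ⟨_, tt_mono.id_le _⟩
  obtain ⟨n, hn⟩ : ∃ n : ℕ, n = tt k + 2 * r + 1 := ⟨_, rfl⟩
  let z : ℤ → Al V := fun i => if -r ≤ i ∧ i ≤ r then x i else
    if n - r ≤ i ∧ i ≤ n + r then y (i - n) else bl
  have z1 : ∀ i : ℤ, -r ≤ i → i ≤ r → z i = x i := fun i a b => if_pos ⟨a, b⟩
  have z2 : ∀ i : ℤ, n - r ≤ i → i ≤ n + r → z i = y (i - n) := fun i a b => by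
    simp only [z]; rw [if_neg (by omega), if_pos ⟨a, b⟩]
  have z3 : ∀ i : ℤ, z i ≠ bl → (-r ≤ i ∧ i ≤ r) ∨ (n - r ≤ i ∧ i ≤ n + r) := fun i h => by
    by_contra hc
    rw [not_or] at hc
    exact h (by simp only [z]; rw [if_neg hc.1, if_neg hc.2])
  have hc : ∀ (k' : ℕ) (j : ℤ), cnt (· = mk) z j (tt (k' + 1)) ≤ 2 * tt k' ∧
      (cnt (isV true) z j (tt (k' + 1)) ≤ 2 * tt k' ∨
        cnt (isV false) z j (tt (k' + 1)) ≤ 2 * tt k') := by
    intro k' j
    by_cases hk' : k' < k
    · have := tt_mono.monotone (show k' + 1 ≤ k from hk')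
      by_cases hj : j ≤ r
      · refine her hx k' j j fun i hi => ?_
        by_cases hb : z (j + i) = bl
        · exact Or.inr hb
        · have := z3 _ hb
          exact Or.inl (z1 _ (by omega) (by omega))
      · refine her hy k' j (j - n) fun i hi => ?_
        by_cases hb : z (j + i) = bl
        · exact Or.inr hb
        · have := z3 _ hb
          exact Or.inl ((z2 _ (by omega) (by omega)).trans (by congr 1; ring))
    · have := tt_mono.monotone (not_lt.1 hk')
      have e : ∀ P : Al V → Prop, ¬P bl → cnt P z j (tt (k' + 1)) ≤ 2 * tt k' := fun P hP => by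
        refine (cnt_le_card (Finset.Icc (-r : ℤ) r ∪ Finset.Icc (n - r : ℤ) (n + r))
          fun i _ h => ?_).trans ((Finset.card_union_le _ _).trans ?_)
        · simpa using z3 (j + i) fun hb => hP (hb ▸ h)
        · simp only [Int.card_Icc]
          omega
      exact ⟨e _ (by simp), Or.inl (e _ (by simp [isV]))⟩
  refine ⟨z, ⟨fun k' j i a b p q => ?_, fun k' j => (hc k' j).1, fun k' j => (hc k' j).2⟩, n,
    fun i hi => ?_⟩
  · have p' := z3 j (by rw [p]; simp)
    have q' := z3 (j + tt k') (by rw [q]; simp)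
    have hne : tt k' ≤ tt k ∨ 1000 * tt k ≤ tt k' := by
      rcases le_or_gt k' k with h | h
      · exact Or.inl (tt_mono.monotone h)
      · exact Or.inr ((tt_step k).trans (tt_mono.monotone h))
    rcases p' with p' | p' <;> rcases q' with q' | q'
    · rw [z1 _ (by omega) (by omega)] at p q ⊢
      exact hx.1 k' j i a b p q
    · omega
    · omega
    · rw [z2 _ (by omega) (by omega)] at p q ⊢
      exact hy.1 k' (j - n) (i - n) (by omega) (by omega) p (by rwa [sub_add_eq_add_sub])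
  · rw [abs_le] at hi
    exact ⟨z1 _ hi.1 hi.2, (z2 _ (by omega) (by omega)).trans (by simp)⟩

lemma prod_cnt (P : Al V → Prop) [DecidablePred P] (x : ℝ) (y : ℤ → Al V) (j : ℤ) (N : ℕ) :
    ∏ i : Fin N, (if P (y (j + i)) then x else 1) = x ^ cnt P y j N := by
  unfold cnt
  rw [← Finset.prod_pow_eq_pow_sum, Finset.prod_range]
  refine Finset.prod_congr rfl fun i _ => ?_
  by_cases h : P (y (j + i)) <;> simp [h]

/-- Words with few non-blank letters. -/
lemma sparse [Fintype V] [DecidableEq V] (N r : ℕ) : ∃ W : Finset (Fin N → Al V),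
    W.card ≤ 2 ^ N * Fintype.card (Al V) ^ r ∧
      ∀ (y : ℤ → Al V), cnt (· ≠ bl) y 0 N ≤ r → (fun i : Fin N => y i) ∈ W := by
  classical
  obtain ⟨c, hc⟩ : ∃ c : ℝ, c = Fintype.card (Al V) := ⟨_, rfl⟩
  have h1 : 1 ≤ c := by rw [hc]; exact_mod_cast Fintype.card_pos
  let ω : Al V → ℝ := fun a => if a ≠ bl then 1 / c else 1
  have h0 : ∀ a, 0 ≤ ω a := fun a => by simp only [ω]; split_ifs <;> positivity
  have h := weight N ω h0 ((1 / c) ^ r)
  refine ⟨Finset.univ.filter fun w : Fin N → Al V => (1 / c) ^ r ≤ ∏ i, ω (w i), ?_,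
    fun y hy => Finset.mem_filter.2 ⟨Finset.mem_univ _, ?_⟩⟩
  · have h2 : ∑ a, ω a ≤ 2 := by
      have : ∑ a, ω a ≤ ∑ a : Al V, ((if a = bl then 1 else 0) + 1 / c) :=
        Finset.sum_le_sum fun a _ => by
          have : 0 ≤ 1 / c := by positivity
          by_cases ha : a = bl <;> simp [ω, ha]
          linarith
      rw [Finset.sum_add_distrib, Finset.sum_ite_eq', Finset.sum_const, Finset.card_univ,
        nsmul_eq_mul, ← hc, mul_one_div_cancel (by linarith), if_pos (Finset.mem_univ _)] at this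
      linarith
    have h3 := h.trans (pow_le_pow_left₀ (Finset.sum_nonneg fun a _ => h0 a) h2 N)
    generalize (Finset.univ.filter fun w : Fin N → Al V => (1 / c) ^ r ≤ ∏ i, ω (w i)).card = m
      at h3 ⊢
    rw [one_div_pow, mul_one_div, div_le_iff₀ (by positivity), hc] at h3
    exact_mod_cast h3
  · refine le_trans (pow_le_pow_of_le_one (by positivity)
      (by rw [div_le_one (by linarith)]; exact h1) hy) (le_of_eq ?_)
    rw [← prod_cnt]
    simp only [ω, zero_add]

variable {conf : Bool → V → V → Prop} {Y : Type} [MetricSpace Y] {F : Y ≃ₜ Y} {e : Y → ℤ → Al V}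

lemma near_bl {a : Al V} (h : a ≠ mk) : ¬far (rl conf) bl a := fun hf => hf.2.1 (Or.inl ⟨rfl, h⟩)

lemma far_inl {j : Fin 6} {a : Al V} (h : ¬far (rl conf) a (Sum.inl j)) (hj : j ≠ 0)
    (ha : j = 1 ∨ a ≠ bl) : a = Sum.inl j := by
  by_contra hne
  refine h ⟨hne, ?_, ?_⟩
  · rintro (⟨h1, h2⟩ | ⟨σ, x, y, -, h2, -⟩)
    · rcases ha with ha | ha
      · exact h2 (by rw [ha])
      · exact ha h1
    · simp at h2
  · rintro (⟨h1, -⟩ | ⟨σ, x, y, h2, -, -⟩)
    · exact hj (Sum.inl.inj h1)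
    · simp at h2

lemma span_up [Fintype V] [DecidableEq V] [Nonempty Y] (M : Model (rl conf) (XX V) F e) (k : ℕ) :
    span F 2 (tt (k + 1)) ≤ 2 ^ tt (k + 1) * Fintype.card (Al V) ^ (4 * tt k ^ 2) := by
  classical
  obtain ⟨W, hW, hm⟩ := sparse (V := V) (tt (k + 1)) (4 * tt k ^ 2)
  obtain ⟨S, hS, h⟩ := span_code (F := F) 2 (tt (k + 1)) W
    (fun y (i : Fin (tt (k + 1))) => e y i) fun x => by
      let K : ℤ → Prop := fun i => 0 ≤ i ∧ i < tt (k + 1) ∧
        ∃ j, 0 ≤ j ∧ j ≤ i ∧ i ≤ j + tt k ∧ e x j = mk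
      let s : ℤ → Al V := fun i => if K i then e x i else bl
      have s1 : ∀ i, K i → s i = e x i := fun i h => if_pos h
      have s2 : ∀ i, s i ≠ bl → K i := fun i h => by
        by_contra hc
        exact h (if_neg hc)
      have hs : s ∈ XX V := by
        have hc := fun k' j => her (z := s) (M.mem x) k' j j fun i _ => by
          by_cases hb : s (j + i) = bl
          · exact Or.inr hb
          · exact Or.inl (s1 _ (s2 _ hb))
        refine ⟨fun k' j i a b p q => ?_, fun k' j => (hc k' j).1, fun k' j => (hc k' j).2⟩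
        have p' := s2 j (by rw [p]; simp)
        have q' := s2 (j + tt k') (by rw [q]; simp)
        rw [s1 _ p'] at p
        rw [s1 _ q'] at q
        have a1 := p'.1
        have a2 := q'.2.1
        have a3 : tt k' ≤ tt k :=
          tt_mono.monotone (Nat.lt_add_one_iff.1 (tt_mono.lt_iff_lt.1 (by omega)))
        rw [s1 i ⟨by omega, by omega, j, a1, a.le, by omega, p⟩]
        exact (M.mem x).1 k' j i a b p q
      obtain ⟨y, hy⟩ := M.surj s hs
      refine ⟨y, hm _ ?_, fun z hz => (M.DT_near fun t ht => ?_).trans_lt one_lt_two⟩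
      · rw [hy]
        let B := (Finset.range (tt (k + 1))).filter fun j : ℕ => e x (0 + j) = mk
        have hB : B.card ≤ 2 * tt k := by
          refine le_trans (le_of_eq ?_) ((M.mem x).2.1 k 0)
          unfold cnt
          rw [Finset.card_filter]
          exact Finset.sum_congr rfl fun i _ => by congr
        refine (cnt_le_card (B.biUnion fun j => Finset.Icc (j : ℤ) (j + tt k)) fun i _ h => ?_).trans
          ((Finset.card_biUnion_le_card_mul _ _ (tt k + 1) fun j _ => ?_).trans ?_)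
        · obtain ⟨a, b, j, c1, c2, c3, c4⟩ := s2 _ h
          lift j to ℕ using c1
          refine Finset.mem_biUnion.2 ⟨j, Finset.mem_filter.2 ⟨Finset.mem_range.2 (by omega),
            by rwa [zero_add]⟩, Finset.mem_Icc.2 ⟨c2, c3⟩⟩
        · simp only [Int.card_Icc]
          omega
        · have := tt_pos k
          nlinarith
      · have : e z t = s t := (congrFun hz ⟨t, ht⟩).trans (congrFun hy t)
        rw [this]
        by_cases hK : K t
        · rw [s1 _ hK]
          exact fun h => h.1 rfl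
        · rw [show s t = bl from if_neg hK]
          exact near_bl fun h => hK ⟨by omega, by omega, t, by omega, le_rfl, by omega, h⟩
  have h0 : span F 2 (tt (k + 1)) ≤ S.card := Nat.sInf_le ⟨S, rfl, h⟩
  exact h0.trans (hS.trans hW)

lemma span_lo [Fintype V] [Nonempty Y] (M : Model (rl conf) (XX V) F e) (k n : ℕ)
    (hn : n + 1 = tt k) : 4 ^ n ≤ span F 2 (n + 2) := by
  classical
  obtain ⟨S, hc, hS⟩ := Nat.sInf_mem
    (s := {m | ∃ S : Finset Y, S.card = m ∧ ∀ x, ∃ s ∈ S, DT F (n + 2) s x < 2}) (by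
      obtain ⟨S, -, h⟩ := span_code (F := F) 2 (n + 2) Finset.univ
        (fun y (i : Fin (n + 2)) => e y i) fun x => ⟨x, Finset.mem_univ _, fun z hz =>
          (M.DT_near fun t ht h => h.1 (congrFun hz ⟨t, ht⟩)).trans_lt one_lt_two⟩
      exact ⟨_, S, rfl, h⟩)
  unfold span
  rw [← hc]
  let pt : (Fin n → Fin 4) → ℤ → Al V := fun w i =>
    if h : 1 ≤ i ∧ i ≤ n then Sum.inl (w ⟨(i - 1).toNat, by omega⟩).succ.succ else
      if i = 0 ∨ i = n + 1 then mk else bl
  have h1 : ∀ w i, pt w i = mk → i = 0 ∨ i = n + 1 := by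
    intro w i
    simp only [pt]
    split_ifs with h h'
    · intro h; exact absurd (Fin.succ_injective _ (Sum.inl.inj h : _ = Fin.succ 0)) (Fin.succ_ne_zero _)
    · exact fun _ => h'
    · simp
  have h2 : ∀ w (i : Fin n), pt w (i + 1 : ℕ) = Sum.inl (w i).succ.succ := by
    intro w i
    simp only [pt]
    rw [dif_pos (by omega)]
    simp
  have h3 : ∀ w (i : ℤ), i = 0 ∨ i = n + 1 → pt w i = mk := by
    intro w i h
    simp only [pt]
    rw [dif_neg (by omega), if_pos h]
  have hm : ∀ w, pt w ∈ XX V := by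
    intro w
    refine ⟨fun k' j i a b p q => ?_, fun k' j => ?_, fun k' j => Or.inl ?_⟩
    · have := h1 _ _ p
      have := h1 _ _ q
      simp only [pt]
      rw [dif_pos (by omega)]
      exact fun h => absurd (Sum.inl.inj h) (Fin.succ_ne_zero _)
    · have := tt_pos k'
      exact (cnt_le_card {0, (n : ℤ) + 1} fun i _ h => by simpa using h1 _ _ h).trans
        (Finset.card_le_two.trans (by omega))
    · refine (cnt_le_card ∅ fun i _ h => ?_).trans (Nat.zero_le _)
      obtain ⟨x, hx⟩ := h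
      simp only [pt] at hx
      split_ifs at hx
  choose g hg using fun w => M.surj _ (hm w)
  choose f hf hd using fun w => hS (g w)
  have nf : ∀ w (t : ℕ), t < n + 2 → ¬far (rl conf) (e (f w) t) (pt w t) := fun w t ht h => by
    have := M.d_le_DT ht (f w) (g w)
    rw [hg, d_far h] at this
    linarith [hd w]
  have key : ∀ w (i : Fin n), e (f w) (i + 1 : ℕ) = Sum.inl (w i).succ.succ := by
    intro w i
    have e0 := nf w 0 (by omega)
    have e1 := nf w (n + 1) (by omega)
    have e2 := nf w (i + 1) (by omega)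
    rw [h3 w _ (by omega)] at e0 e1
    rw [h2] at e2
    refine far_inl e2 (Fin.succ_ne_zero _) (Or.inr ((M.mem (f w)).1 k 0 _ (by omega) (by omega)
      (far_inl e0 (by decide) (Or.inl rfl)) ?_))
    rw [zero_add, ← hn]
    exact far_inl e1 (by decide) (Or.inl rfl)
  have := Finset.card_le_card_of_injOn (s := Finset.univ) (t := S) f (fun w _ => hf w) (by
    intro w _ w' _ h
    funext i
    have a := key w i
    rw [h, key w' i] at a
    simpa using a.symm)
  simpa using this

lemma osc {a : ℕ → ℕ} {p q : ℝ} (hpq : p < q)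
    (h1 : ∀ N, ∃ T ≥ N, 0 < T ∧ ∃ m : ℕ, a T ≤ 2 ^ m ∧ m ≤ p * T)
    (h2 : ∀ N, ∃ T ≥ N, 0 < T ∧ ∃ m : ℕ, 2 ^ m ≤ a T ∧ q * T ≤ m) : lo a < up a := by
  have l2 := Real.log_pos one_lt_two
  refine lt_of_le_of_lt (b := ((p * Real.log 2 : ℝ) : EReal))
    (liminf_le_of_frequently_le' (frequently_atTop.2 fun N => ?_))
    (lt_of_lt_of_le (b := ((q * Real.log 2 : ℝ) : EReal)) (EReal.coe_lt_coe_iff.2 (by nlinarith))
    (le_limsup_of_frequently_le' (frequently_atTop.2 fun N => ?_)))
  · obtain ⟨T, hT, h0, m, h, hm⟩ := h1 N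
    refine ⟨T, hT, EReal.coe_le_coe_iff.2 ?_⟩
    have := log_le (a := a T) (z := 2 ^ m) (one_le_pow₀ (by norm_num)) (by exact_mod_cast h)
    rw [Real.log_pow] at this
    rw [div_le_iff₀ (by exact_mod_cast h0)]
    nlinarith
  · obtain ⟨T, hT, h0, m, h, hm⟩ := h2 N
    refine ⟨T, hT, EReal.coe_le_coe_iff.2 ?_⟩
    have : Real.log (2 ^ m) ≤ Real.log (a T) :=
      Real.log_le_log (by positivity) (by exact_mod_cast h)
    rw [Real.log_pow] at this
    rw [le_div_iff₀ (by exact_mod_cast h0)]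
    nlinarith

lemma span_osc [Fintype V] [DecidableEq V] [Nonempty Y] (M : Model (rl conf) (XX V) F e)
    (hV : Fintype.card (Al V) ≤ 2 ^ 62) : lo (span F 2) < up (span F 2) := by
  refine osc (p := 5 / 4) (q := 3 / 2) (by norm_num) (fun N => ?_) fun N => ?_
  · refine ⟨tt (N + 1), (Nat.le_succ N).trans (tt_mono.id_le _), tt_pos _,
      tt (N + 1) + 62 * (4 * tt N ^ 2), (span_up M N).trans ?_, ?_⟩
    · rw [pow_add, pow_mul 2 62]
      exact Nat.mul_le_mul_left _ (Nat.pow_le_pow_left hV _)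
    · rw [tt]
      push_cast
      nlinarith [sq_nonneg (tt N : ℝ)]
  · have a1 := tt_step N
    have a2 := tt_pos N
    have a3 : N + 1 ≤ tt (N + 1) := tt_mono.id_le _
    obtain ⟨n, hn⟩ : ∃ n, n + 1 = tt (N + 1) := ⟨tt (N + 1) - 1, by omega⟩
    refine ⟨n + 2, by omega, by omega, 2 * n, by rw [pow_mul]; exact span_lo M _ n hn, ?_⟩
    have : (6 : ℝ) ≤ n := by exact_mod_cast (by omega : 6 ≤ n)
    push_cast
    linarith

lemma exists_model [Fintype V] [DecidableEq V] (conf : Bool → V → V → Prop)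
    (hV : Fintype.card (Al V) ≤ 2 ^ 62) :
    ∃ (Y : Type) (_ : MetricSpace Y) (_ : CompactSpace Y) (F : Y ≃ₜ Y) (e : Y → ℤ → Al V),
      Model (rl conf) (XX V) F e ∧ Nonempty Y ∧ DenseOrbit F ∧ ent F < ⊤ ∧
        lo (span F 2) < up (span F 2) := by
  let _ : TopologicalSpace (Al V) := ⊥
  have : DiscreteTopology (Al V) := ⟨rfl⟩
  obtain ⟨Y, _, _, F, e, M⟩ := build (rl conf) (XX V) closed inv
  obtain ⟨y, -⟩ := M.surj (fun _ => bl) ⟨by simp, fun k j => by simp [cnt],
    fun k j => by simp [cnt, isV]⟩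
  have : Nonempty Y := ⟨y⟩
  exact ⟨Y, _, inferInstance, F, e, M, this, M.trans glue, M.ent_lt, span_osc M hV⟩

end Shift

section Two

variable {V : Type}

lemma cnt_add (P : Al V → Prop) (s : ℤ → Al V) (j : ℤ) (a b : ℕ) :
    cnt P s j (a + b) = cnt P s j a + cnt P s (j + a) b := by
  unfold cnt
  rw [Finset.sum_range_add]
  congr 1
  exact Finset.sum_congr rfl fun i _ => by rw [Nat.cast_add, add_assoc]

lemma cnt_long {s : ℤ → Al V} (hs : s ∈ XX V) (k : ℕ) (j : ℤ) (N : ℕ) :
    cnt (· = mk) s j N ≤ 2 * tt k * (N / tt (k + 1) + 1) := by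
  have h : ∀ q : ℕ, cnt (· = mk) s j (q * tt (k + 1)) ≤ 2 * tt k * q := by
    intro q
    induction q with
    | zero => simp [cnt]
    | succ q ih => rw [add_one_mul, cnt_add, mul_add_one]; exact add_le_add ih (hs.2.1 _ _)
  refine le_trans ?_ (h _)
  obtain ⟨c, hc⟩ := Nat.exists_eq_add_of_le (Nat.lt_mul_div_succ N (tt_pos (k + 1))).le
  rw [mul_comm, hc, cnt_add]
  exact Nat.le_add_right _ _

lemma lim {a : ℕ → ℕ} {g : ℕ} (hg : 1 ≤ g) (r : ℕ) (hl : ∀ T, g ^ T ≤ a T)
    (hu : ∀ x : ℝ, 0 < x → x ≤ 1 → ∀ k T : ℕ,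
      a T * x ^ (2 * tt k * ((T + r) / tt (k + 1) + 1)) ≤ (g + x) ^ (T + r)) : lo a = up a := by
  have hg' : (1 : ℝ) ≤ g := by exact_mod_cast hg
  have lg := Real.log_nonneg hg'
  have ha : ∀ T, (0 : ℝ) < a T := fun T => by
    exact_mod_cast (Nat.one_le_pow T g hg).trans (hl T)
  have H : Tendsto (fun T : ℕ => Real.log (a T) / T) atTop (𝓝 (Real.log g)) := by
    refine tendsto_order.2 ⟨fun b hb => ?_, fun b hb => ?_⟩
    · filter_upwards [eventually_gt_atTop 0] with T hT
      have : Real.log (g ^ T) ≤ Real.log (a T) :=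
        Real.log_le_log (by positivity) (by exact_mod_cast hl T)
      rw [Real.log_pow] at this
      have hT' : (0 : ℝ) < T := by exact_mod_cast hT
      rw [lt_div_iff₀ hT']
      nlinarith
    · obtain ⟨x, x0, x1, x2⟩ : ∃ x : ℝ, 0 < x ∧ x ≤ 1 ∧ Real.log g + 3 * x ≤ b :=
        ⟨min 1 ((b - Real.log g) / 3), lt_min one_pos (by linarith), min_le_left _ _, by
          linarith [min_le_right 1 ((b - Real.log g) / 3)]⟩
      obtain ⟨u, hu0, hux⟩ : ∃ u : ℝ, 0 ≤ u ∧ Real.log x = -u :=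
        ⟨-Real.log x, by linarith [Real.log_nonpos x0.le x1], by ring⟩
      obtain ⟨k, hk⟩ := exists_nat_ge (u / x)
      have k1 : (k : ℝ) ≤ tt k := by exact_mod_cast tt_mono.id_le k
      have k2 : (1 : ℝ) ≤ tt k := by exact_mod_cast tt_pos k
      have k3 : u ≤ x * tt k := by rw [div_le_iff₀ x0] at hk; nlinarith
      have l1 : Real.log (g + x) ≤ Real.log g + x := by
        have h1 : Real.log (g + x) ≤ Real.log (g * (1 + x)) :=
          Real.log_le_log (by linarith) (by nlinarith)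
        rw [Real.log_mul (by linarith) (by linarith)] at h1
        linarith [Real.log_le_sub_one_of_pos (show 0 < 1 + x by linarith)]
      obtain ⟨C, hC⟩ : ∃ C : ℝ, C = r * (Real.log g + 2 * x) + 2 * tt k * u := ⟨_, rfl⟩
      filter_upwards [tendsto_natCast_atTop_atTop.eventually_gt_atTop (C / x),
        eventually_gt_atTop 0] with T hT hT0
      have hT' : (0 : ℝ) < T := by exact_mod_cast hT0
      have h1 := Real.log_le_log (by have := ha T; positivity) (hu x x0 x1 k T)
      rw [Real.log_mul (ha T).ne' (by positivity), Real.log_pow, Real.log_pow, hux] at h1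
      have h2 : (((T + r) / tt (k + 1) : ℕ) : ℝ) * (1000 * tt k ^ 2) ≤ T + r := by
        have := Nat.div_mul_le_self (T + r) (tt (k + 1))
        nth_rewrite 2 [tt] at this
        exact_mod_cast this
      push_cast at h1
      generalize (((T + r) / tt (k + 1) : ℕ) : ℝ) = q at h1 h2
      have hr : (0 : ℝ) ≤ r := by positivity
      have h3 : 2 * tt k * q * u ≤ x * (T + r) := by
        rcases le_total q 0 with hq | hq
        · have : 0 ≤ 2 * tt k * u := by positivity
          nlinarith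
        · have : 2 * tt k * q * u ≤ 2 * tt k * q * (x * tt k) := by gcongr
          have : x * (q * (1000 * tt k ^ 2)) ≤ x * (T + r) := by gcongr
          have : 0 ≤ x * q * tt k ^ 2 := by positivity
          nlinarith
      rw [div_lt_iff₀ x0] at hT
      rw [div_lt_iff₀ hT']
      have h4 : (T + r) * Real.log (g + x) ≤ (T + r) * (Real.log g + x) := by gcongr
      have h5 : (Real.log g + 3 * x) * T ≤ b * T := by gcongr
      nlinarith
  have H' := (continuous_coe_real_ereal.tendsto _).comp H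
  exact H'.liminf_eq.trans H'.limsup_eq.symm

variable {conf : Bool → V → V → Prop} {Y : Type} [MetricSpace Y] {F : Y ≃ₜ Y} {e : Y → ℤ → Al V}

lemma free [Fintype V] (M : Model (rl conf) (XX V) F e) {δ : ℝ} (hδ : 0 < δ) {g : ℕ}
    (ι : Fin g → Fin 6) (h1 : ∀ b, ι b ≠ 1)
    (h2 : ∀ b b', b ≠ b' → δ ≤ d (rl conf) (Sum.inl (ι b)) (Sum.inl (ι b'))) (T : ℕ) :
    g ^ T ≤ sep F δ T := by
  let p : (Fin T → Fin g) → ℤ → Al V := fun w i =>
    if h : 0 ≤ i ∧ i < T then Sum.inl (ι (w ⟨i.toNat, by omega⟩)) else bl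
  have p1 : ∀ w i, p w i ≠ mk := fun w i => by
    simp only [p]
    split_ifs
    · exact fun h => h1 _ (Sum.inl.inj h)
    · simp
  have := M.le_sep hδ T p (fun w => ⟨fun k j i _ _ h => absurd h (p1 _ _), fun k j =>
    (cnt_le_card ∅ fun i _ h => absurd h (p1 _ _)).trans (Nat.zero_le _), fun k j => Or.inl
    ((cnt_le_card ∅ fun i _ h => by
      obtain ⟨x, hx⟩ := h
      simp only [p] at hx
      split_ifs at hx).trans (Nat.zero_le _))⟩) fun w w' h => by
    obtain ⟨i, hi⟩ := Function.ne_iff.1 h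
    refine ⟨i, i.2, ?_⟩
    simp only [p]
    rw [dif_pos (by omega), dif_pos (by omega)]
    simpa using h2 _ _ hi
  simpa using this

lemma sep_lim {e : Y → ℤ → Al Empty} {conf : Bool → Empty → Empty → Prop}
    (M : Model (rl conf) (XX Empty) F e) {δ : ℝ} (hδ : 0 < δ) : lo (sep F δ) = up (sep F δ) := by
  classical
  by_cases h2 : 2 < δ
  · have : ∀ T, Real.log (sep F δ T) = 0 := fun T => by
      have := sep_le_code (F := F) δ T {()} (fun _ => ()) (by simp)
        fun x y _ => (M.DT_two T x y).trans_lt h2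
      rcases Nat.le_one_iff_eq_zero_or_eq_one.1 this with h | h <;> simp [h]
    simp [lo, up, this]
  by_cases h1 : 1 < δ
  · refine lim (g := 4) (by norm_num) 0 (free M hδ (fun b => b.succ.succ) (by decide)
      fun b b' h => ?_) fun x x0 x1 k T => ?_
    · rw [d_far]
      · linarith
      · have : ∀ c : Fin 4, c.succ.succ ≠ 0 := by decide
        simpa [far, rl, this] using h
    · let ω : Al Empty → ℝ := fun a => if a = mk then x else if a = bl then 0 else 1
      have h0 : ∀ a, 0 ≤ ω a := fun a => by simp only [ω]; split_ifs <;> positivity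
      have h := weight T ω h0 (x ^ (2 * tt k * (T / tt (k + 1) + 1)))
      have hs : ∑ a, ω a = 4 + x := by
        simp [ω, Fin.sum_univ_six]
        ring
      rw [hs] at h
      refine le_trans (mul_le_mul_of_nonneg_right (Nat.cast_le.2 ?_) (by positivity))
        (by simpa using h)
      refine sep_le_code δ T _ (fun y (i : Fin T) => if e y i = bl then Sum.inl 2 else e y i)
        (fun y => ?_) fun y z h => (M.DT_near fun t ht hf => ?_).trans_lt h1
      · refine Finset.mem_filter.2 ⟨Finset.mem_univ _, (pow_le_pow_of_le_one x0.le x1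
          (cnt_long (M.mem y) k 0 T)).trans (le_of_eq ?_)⟩
        rw [← prod_cnt]
        refine Finset.prod_congr rfl fun i _ => ?_
        by_cases hb : e y i = bl <;> simp [ω, hb]
      · have := congrFun h ⟨t, ht⟩
        simp only at this
        split_ifs at this with a b b
        · exact hf.1 (a.trans b.symm)
        · exact hf.2.1 (Or.inl ⟨a, by rw [← this]; simp⟩)
        · exact hf.2.2 (Or.inl ⟨b, by rw [this]; simp⟩)
        · exact hf.1 this
  · obtain ⟨r, hr⟩ := small hδ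
    refine lim (g := 5) (by norm_num) (2 * r) (free M hδ (Fin.succAbove 1) (by decide)
      fun b b' h => (not_lt.1 h1).trans (d_pos (by simpa using h))) fun x x0 x1 k T => ?_
    let ω : Al Empty → ℝ := fun a => if a = mk then x else 1
    have h0 : ∀ a, 0 ≤ ω a := fun a => by simp only [ω]; split_ifs <;> positivity
    have h := weight (T + 2 * r) ω h0 (x ^ (2 * tt k * ((T + 2 * r) / tt (k + 1) + 1)))
    have hs : ∑ a, ω a = 5 + x := by
      simp [ω, Fin.sum_univ_six]
      ring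
    rw [hs] at h
    refine le_trans (mul_le_mul_of_nonneg_right (Nat.cast_le.2 ?_) (by positivity))
      (by simpa using h)
    refine sep_le_code δ T _ (fun y (i : Fin (T + 2 * r)) => e y (-r + i))
      (fun y => ?_) fun y z h => (M.DT_agree fun i => congrFun h i).trans_lt hr
    refine Finset.mem_filter.2 ⟨Finset.mem_univ _, (pow_le_pow_of_le_one x0.le x1
      (cnt_long (M.mem y) k (-r) _)).trans (le_of_eq ?_)⟩
    rw [← prod_cnt]

end Two

section One

lemma rank (K : Type) [Field K] {A I Y : Type} [Fintype I] (φ ψ : A → I → K) (T : ℕ)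
    (S : Finset Y) (c : Y → Fin T → A) (h1 : ∀ a, ∑ i, φ a i * ψ a i ≠ 0)
    (h2 : ∀ x ∈ S, ∀ y ∈ S, x ≠ y → ∃ t, ∑ i, φ (c x t) i * ψ (c y t) i = 0) :
    S.card ≤ Fintype.card I ^ T := by
  classical
  let v : S → (Fin T → I) → K := fun x f => ∏ t, φ (c x t) (f t)
  let w : S → (Fin T → I) → K := fun x f => ∏ t, ψ (c x t) (f t)
  have key : ∀ x y, ∑ f, v x f * w y f = ∏ t, ∑ i, φ (c x t) i * ψ (c y t) i := fun x y => by
    rw [Finset.prod_univ_sum, Fintype.piFinset_univ]
    exact Finset.sum_congr rfl fun f _ => Finset.prod_mul_distrib.symm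
  have li : LinearIndependent K v := by
    rw [Fintype.linearIndependent_iff]
    intro g hg y
    have h : ∑ x, g x * ∑ f, v x f * w y f = 0 := by
      simp only [Finset.mul_sum]
      rw [Finset.sum_comm]
      refine Finset.sum_eq_zero fun f _ => ?_
      have := congrFun hg f
      simp only [Finset.sum_apply, Pi.smul_apply, smul_eq_mul, Pi.zero_apply] at this
      simp only [← mul_assoc, ← Finset.sum_mul, this, zero_mul]
    rw [Finset.sum_eq_single y (fun x _ hx => ?_) (by simp), key] at h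
    · exact (mul_eq_zero.1 h).resolve_right (Finset.prod_ne_zero_iff.2 fun t _ => h1 _)
    · obtain ⟨t, ht⟩ := h2 x x.2 y y.2 fun h => hx (Subtype.ext h)
      rw [key, Finset.prod_eq_zero (Finset.mem_univ t) ht, mul_zero]
  simpa using li.fintype_card_le_finrank

variable {m : ℕ}

/-- Number of agreeing coordinates. -/
def ag (x y : Fin 3 → Fin m) : ℕ := ∑ i, if x i = y i then 1 else 0

/-- Closeness inside the two copies. -/
def cf (σ : Bool) (x y : Fin 3 → Fin m) : Prop :=
  (σ = true ∧ ag x y % 2 = 1) ∨ (σ = false ∧ ag x y ≠ 1)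

/-- Vector representation of the letters. -/
def vec {K : Type} [Field K] (κ : K) : Al (Fin 3 → Fin m) → Fin 6 ⊕ Fin 3 × Fin m → K
  | Sum.inl j, Sum.inl j' => if j' = j then 1 else 0
  | Sum.inl _, Sum.inr _ => 0
  | Sum.inr _, Sum.inl j' => if j' = 0 then κ else 0
  | Sum.inr x, Sum.inr p => if p.2 = x.2 p.1 then 1 else 0

lemma ag_self (x : Fin 3 → Fin m) : ag x x = 3 := by simp [ag]

lemma ag_symm (x y : Fin 3 → Fin m) : ag x y = ag y x := by simp [ag, eq_comm]

lemma ag_le {x y : Fin 3 → Fin m} (h : x ≠ y) : ag x y ≤ 2 := by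
  by_contra hc
  refine h (funext fun i => ?_)
  simp only [ag, Fin.sum_univ_three] at hc
  fin_cases i <;> split_ifs at hc <;> simp_all

lemma pair_rr {K : Type} [Field K] (κ : K) (x y : Bool × (Fin 3 → Fin m)) :
    ∑ i, vec 1 (Sum.inr x) i * vec κ (Sum.inr y) i = ag x.2 y.2 + κ := by
  simp [vec, ag, Fintype.sum_prod_type, add_comm, eq_comm]

lemma pair {K : Type} [Field K] (κ : K) (σ : Bool)
    (h : ∀ x y : Fin 3 → Fin m, ¬cf (!σ) x y → (ag x y : K) + κ = 0) {a b : Al (Fin 3 → Fin m)}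
    (hf : far (rl cf) a b) (ha : ¬isV σ a) (hb : ¬isV σ b) :
    ∑ i, vec 1 a i * vec κ b i = 0 := by
  rcases a with j | ⟨s, x⟩ <;> rcases b with j' | ⟨s', y⟩
  · have : j ≠ j' := fun h => hf.1 (h ▸ rfl)
    simp [vec, this.symm]
  · have : j ≠ 0 := fun h => hf.2.1 (Or.inl ⟨h ▸ rfl, by simp⟩)
    simp [vec, this.symm]
  · have : j' ≠ 0 := fun h => hf.2.2 (Or.inl ⟨h ▸ rfl, by simp⟩)
    simp [vec, this]
  · have e1 : s = !σ := by
      by_contra hc
      exact ha ⟨x, by cases s <;> cases σ <;> simp_all⟩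
    have e2 : s' = !σ := by
      by_contra hc
      exact hb ⟨y, by cases s' <;> cases σ <;> simp_all⟩
    rw [pair_rr]
    exact h x y fun hc => hf.2.1 (Or.inr ⟨_, x, y, by rw [e1], by rw [e2], hc⟩)

lemma pair_self {K : Type} [Field K] (κ : K) (h : 3 + κ ≠ 0) (a : Al (Fin 3 → Fin m)) :
    ∑ i, vec 1 a i * vec κ a i ≠ 0 := by
  rcases a with j | x
  · simp [vec]
  · rw [pair_rr, ag_self]
    exact_mod_cast h

variable {Y : Type} [MetricSpace Y] {F : Y ≃ₜ Y} {e : Y → ℤ → Al (Fin 3 → Fin m)}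

lemma sep_up (M : Model (rl cf) (XX _) F e) (k : ℕ) : sep F 2 (tt (k + 1)) ≤
    (6 + 3 * m) ^ tt (k + 1) *
      (2 * (2 ^ tt (k + 1) * Fintype.card (Al (Fin 3 → Fin m)) ^ (2 * tt k))) := by
  classical
  obtain ⟨W, hW, hm⟩ := sparse (V := Fin 3 → Fin m) (tt (k + 1)) (2 * tt k)
  choose σ hσ using fun y : Y => show ∃ σ, cnt (isV σ) (e y) 0 (tt (k + 1)) ≤ 2 * tt k from
    ((M.mem y).2.2 k 0).elim (fun h => ⟨_, h⟩) fun h => ⟨_, h⟩
  let ty : Y → ℤ → Al (Fin 3 → Fin m) := fun y i => if isV (σ y) (e y i) then e y i else bl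
  refine sep_le fun S hS => ?_
  refine (Finset.card_le_mul_card_image_of_maps_to (t := Finset.univ ×ˢ W)
    (f := fun y => (σ y, fun i : Fin (tt (k + 1)) => ty y i)) (fun y _ => ?_)
    ((6 + 3 * m) ^ tt (k + 1)) fun b _ => ?_).trans (Nat.mul_le_mul_left _ ?_)
  · refine Finset.mem_product.2 ⟨Finset.mem_univ _, hm (ty y) (le_trans (cnt_mono fun i _ h => ?_)
      (hσ y))⟩
    by_contra hc
    exact h (if_neg hc)
  · have key : ∀ x ∈ S.filter fun y => (σ y, fun i : Fin (tt (k + 1)) => ty y i) = b,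
        ∀ y ∈ S.filter fun y => (σ y, fun i : Fin (tt (k + 1)) => ty y i) = b, x ≠ y →
        ∃ t : Fin (tt (k + 1)), far (rl cf) (e x t) (e y t) ∧ ¬isV b.1 (e x t) ∧
          ¬isV b.1 (e y t) := by
      intro x hx y hy hne
      rw [Finset.mem_filter] at hx hy
      have h1 := hS x hx.1 y hy.1 hne
      obtain ⟨t, ht, hf⟩ : ∃ t < tt (k + 1), far (rl cf) (e x t) (e y t) := by
        by_contra hc
        linarith [M.DT_near (x := x) (y := y) fun t ht hf => hc ⟨t, ht, hf⟩]
      have e1 : σ x = b.1 := congrArg Prod.fst hx.2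
      have e2 : σ y = b.1 := congrArg Prod.fst hy.2
      have e3 : ty x t = ty y t := congrFun (congrArg Prod.snd (hx.2.trans hy.2.symm)) ⟨t, ht⟩
      simp only [ty, e1, e2] at e3
      refine ⟨⟨t, ht⟩, hf, ?_⟩
      split_ifs at e3 with a c c
      · exact absurd e3 hf.1
      · rw [e3] at a; simp [isV] at a
      · rw [← e3] at c; simp [isV] at c
      · exact ⟨a, c⟩
    have fin : ∀ (K : Type) [Field K] (κ : K), 3 + κ ≠ 0 →
        (∀ x y : Fin 3 → Fin m, ¬cf (!b.1) x y → (ag x y : K) + κ = 0) →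
        (S.filter fun y => (σ y, fun i : Fin (tt (k + 1)) => ty y i) = b).card ≤
          (6 + 3 * m) ^ tt (k + 1) := fun K _ κ h1 h2 => by
      have := rank K (vec 1) (vec κ) (tt (k + 1)) _ (fun y t => e y t) (pair_self κ h1)
        fun x hx y hy hne => by
          obtain ⟨t, h3, h4, h5⟩ := key x hx y hy hne
          exact ⟨t, pair κ b.1 h2 h3 h4 h5⟩
      simpa using this
    cases hb : b.1
    · refine fin (ZMod 2) 0 (by decide) fun x y h => ?_
      have : ag x y % 2 = 0 := by simpa [cf, hb] using h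
      rw [add_zero, ZMod.natCast_eq_zero_iff]
      omega
    · refine fin ℚ (-1) (by norm_num) fun x y h => ?_
      have : ag x y = 1 := by simpa [cf, hb] using h
      simp [this]
  · rw [Finset.card_product]
    exact Nat.mul_le_mul (by simp) hW

lemma sep_lo (M : Model (rl cf) (XX _) F e) (k : ℕ) :
    (m ^ 3) ^ (2 * tt k) ≤ sep F 2 (5 * tt k) := by
  obtain ⟨L, hL⟩ : ∃ L, L = tt k := ⟨_, rfl⟩
  rw [← hL]
  let p : (Fin (2 * L) → Fin 3 → Fin m) → ℤ → Al (Fin 3 → Fin m) := fun w i =>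
    if h : 0 ≤ i ∧ i < 2 * L then Sum.inr (true, w ⟨i.toNat, by omega⟩) else
      if h : 3 * L ≤ i ∧ i < 5 * L then Sum.inr (false, w ⟨(i - 3 * L).toNat, by omega⟩) else bl
  have p1 : ∀ w i, p w i ≠ mk := fun w i => by
    simp only [p]
    split_ifs <;> simp
  have p2 : ∀ w i, isV true (p w i) → 0 ≤ i ∧ i < 2 * L := fun w i => by
    simp only [p]
    split_ifs with a b
    · exact fun _ => a
    all_goals simp [isV]
  have p3 : ∀ w i, isV false (p w i) → 3 * L ≤ i := fun w i => by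
    simp only [p]
    split_ifs with a b
    · simp [isV]
    · exact fun _ => b.1
    · simp [isV]
  have q1 : ∀ w (i : Fin (2 * L)), p w (i : ℕ) = Sum.inr (true, w i) := fun w i => by
    simp only [p]
    rw [dif_pos (by omega)]
    simp
  have q2 : ∀ w (i : Fin (2 * L)), p w (i + 3 * L : ℕ) = Sum.inr (false, w i) := fun w i => by
    simp only [p]
    rw [dif_neg (by omega), dif_pos (by omega)]
    simp
  have := M.le_sep two_pos (5 * L) p (fun w => ⟨fun k j i _ _ h => absurd h (p1 _ _), fun k j =>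
    (cnt_le_card ∅ fun i _ h => absurd h (p1 _ _)).trans (Nat.zero_le _), fun k' j => by
      by_cases hk : k' < k
      · have := tt_mono.monotone (show k' + 1 ≤ k from hk)
        by_cases hj : j < 2 * L
        · refine Or.inr ((cnt_le_card ∅ fun i _ h => ?_).trans (Nat.zero_le _))
          have := p3 _ _ h
          omega
        · refine Or.inl ((cnt_le_card ∅ fun i _ h => ?_).trans (Nat.zero_le _))
          have := p2 _ _ h
          omega
      · have := tt_mono.monotone (not_lt.1 hk)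
        refine Or.inl ((cnt_le_card (Finset.Ico 0 (2 * L : ℤ)) fun i _ h =>
          Finset.mem_Ico.2 (p2 _ _ h)).trans ?_)
        simp only [Int.card_Ico]
        omega⟩) fun w w' h => by
    obtain ⟨i, hi⟩ := Function.ne_iff.1 h
    have h2 := ag_le hi
    have h3 := ag_symm (w i) (w' i)
    by_cases h1 : ag (w i) (w' i) = 1
    · refine ⟨i + 3 * L, by omega, (d_far ?_).ge⟩
      rw [q2, q2]
      simp [far, rl, cf, hi, h1, ← h3]
    · refine ⟨i, by omega, (d_far ?_).ge⟩
      rw [q1, q1]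
      simp [far, rl, cf, hi, ← h3]
      omega
  simpa using this

lemma card_le (hm : m = 2 ^ 20) : Fintype.card (Al (Fin 3 → Fin m)) ≤ 2 ^ 62 := by
  simp only [Fintype.card_sum, Fintype.card_prod, Fintype.card_fun, Fintype.card_fin,
    Fintype.card_bool]
  rw [hm]
  norm_num

lemma sep_osc (hm : m = 2 ^ 20) (M : Model (rl cf) (XX _) F e) :
    lo (sep F 2) < up (sep F 2) := by
  refine osc (p := 47 / 2) (q := 24) (by norm_num) (fun N => ?_) fun N => ?_
  · refine ⟨tt (N + 1), (Nat.le_succ N).trans (tt_mono.id_le _), tt_pos _,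
      22 * tt (N + 1) + (1 + (tt (N + 1) + 62 * (2 * tt N))), (sep_up M N).trans ?_, ?_⟩
    · rw [pow_add, pow_add, pow_add, pow_mul 2 62, pow_mul 2 22, pow_one]
      exact Nat.mul_le_mul (Nat.pow_le_pow_left (by omega) _) (Nat.mul_le_mul_left _
        (Nat.mul_le_mul_left _ (Nat.pow_le_pow_left (card_le hm) _)))
    · have h1 : (1000 * tt N : ℝ) ≤ tt (N + 1) := by exact_mod_cast tt_step N
      have h2 : (1 : ℝ) ≤ tt N := by exact_mod_cast tt_pos N
      push_cast
      linarith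
  · have a2 := tt_pos N
    have a3 : N ≤ tt N := tt_mono.id_le _
    refine ⟨5 * tt N, by omega, by omega, 20 * 3 * (2 * tt N), ?_, by push_cast; linarith⟩
    rw [pow_mul, pow_mul 2 20 3, ← hm]
    exact sep_lo M N

end One

theorem result :
    (∃ (X : Type) (_ : MetricSpace X) (_ : CompactSpace X) (F : X ≃ₜ X),
      DenseOrbit F ∧ ent F < ⊤ ∧
        ∃ ε > 0, lo (span F ε) < up (span F ε) ∧ lo (sep F ε) < up (sep F ε)) ∧
    ∃ (X : Type) (_ : MetricSpace X) (_ : CompactSpace X) (F : X ≃ₜ X),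
      DenseOrbit F ∧ ent F < ⊤ ∧ (∃ ε > 0, lo (span F ε) < up (span F ε)) ∧
        ∀ δ > 0, lo (sep F δ) = up (sep F δ) := by
  constructor
  · obtain ⟨m, hm⟩ : ∃ m, m = 2 ^ 20 := ⟨_, rfl⟩
    obtain ⟨Y, _, _, F, e, M, _, h1, h2, h3⟩ := exists_model (V := Fin 3 → Fin m) cf (card_le hm)
    exact ⟨Y, _, inferInstance, F, h1, h2, 2, two_pos, h3, sep_osc hm M⟩
  · obtain ⟨Y, _, _, F, e, M, _, h1, h2, h3⟩ :=
      exists_model (V := Empty) (fun _ _ _ => False) (by simp)
    exact ⟨Y, _, inferInstance, F, h1, h2, ⟨2, two_pos, h3⟩, fun δ hδ => sep_lim M hδ⟩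

end Pool.Agent.Results.MP_307271_an.Weiss
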